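import Pool.Agent.W46.KK.Core

/-!
# Counting lemmas for the multiscale argument
-/

set_option autoImplicit false

open MeasureTheory Finset
open scoped ENNReal

namespace Pool.Agent.W5h51.KH

open Pool.Agent.W46.KK

/-- Pigeonhole over levels with geometrically growing finite families. -/
theorem pigeon2 {X ι : Type*} [MeasurableSpace X] (μ : Measure X) (V : Set X) (Q : ℕ → Finset ι)
    (D : ℕ) (hD : 1 ≤ D) (hQ : ∀ k, (Q k).card ≤ D ^ (k + 1)) (A : ℕ → ι → Set X)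
    (hV : ∀ v ∈ V, ∃ k, ∃ q ∈ Q k, v ∈ A k q) (x : ℝ) (hx : 0 < x)
    (hμ : ENNReal.ofReal x ≤ μ V) :
    ∃ k, ∃ q ∈ Q k, ENNReal.ofReal (x / (4 * (D : ℝ)) ^ (k + 1)) ≤ μ (A k q) := by
  by_contra hcon
  push Not at hcon
  have hD0 : (0 : ℝ) < D := by exact_mod_cast hD
  have h1 : μ V ≤ ∑' k, ENNReal.ofReal (x / 4 * (1 / 4 : ℝ) ^ k) := by
    have hsub : V ⊆ ⋃ k, ⋃ q ∈ Q k, A k q := by
      intro v hv
      obtain ⟨k, q, hq, hvA⟩ := hV v hv
      exact Set.mem_iUnion.2 ⟨k, Set.mem_iUnion₂.2 ⟨q, hq, hvA⟩⟩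
    refine (measure_mono hsub).trans ((measure_iUnion_le _).trans (ENNReal.tsum_le_tsum fun k => ?_))
    calc μ (⋃ q ∈ Q k, A k q) ≤ ∑ q ∈ Q k, μ (A k q) := measure_biUnion_finset_le _ _
      _ ≤ ∑ _q ∈ Q k, ENNReal.ofReal (x / (4 * (D : ℝ)) ^ (k + 1)) :=
        Finset.sum_le_sum fun q hq => (hcon k q hq).le
      _ = ENNReal.ofReal ((Q k).card * (x / (4 * (D : ℝ)) ^ (k + 1))) := by
        rw [Finset.sum_const, nsmul_eq_mul, ENNReal.ofReal_mul (by positivity),
          ENNReal.ofReal_natCast]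
      _ ≤ _ := by
        apply ENNReal.ofReal_le_ofReal
        have h2 : ((Q k).card : ℝ) ≤ (D : ℝ) ^ (k + 1) := by exact_mod_cast hQ k
        calc ((Q k).card : ℝ) * (x / (4 * (D : ℝ)) ^ (k + 1))
            ≤ (D : ℝ) ^ (k + 1) * (x / (4 * (D : ℝ)) ^ (k + 1)) := by gcongr
          _ = x / 4 * (1 / 4 : ℝ) ^ k := by
            rw [mul_pow, pow_succ, pow_succ, one_div, inv_pow]
            field_simp
  have hsum : Summable fun k : ℕ => x / 4 * (1 / 4 : ℝ) ^ k :=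
    (summable_geometric_of_lt_one (by norm_num) (by norm_num)).mul_left _
  have h3 : ∑' k : ℕ, ENNReal.ofReal (x / 4 * (1 / 4 : ℝ) ^ k) = ENNReal.ofReal (x / 3) := by
    rw [← ENNReal.ofReal_tsum_of_nonneg (fun k => by positivity) hsum, tsum_mul_left,
      tsum_geometric_of_lt_one (by norm_num) (by norm_num)]
    congr 1
    ring
  rw [h3] at h1
  have h4 := (ENNReal.ofReal_le_ofReal_iff (by positivity)).1 (hμ.trans h1)
  linarith

/-- Markov's inequality for the number of the points `z l` which are close to `θ + h`. -/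
theorem markov (J : Finset ℕ) (z : ℕ → ℝ) (ρ h T : ℝ) (hρ : 0 ≤ ρ) (hT : 0 < T) :
    volume {θ : ℝ | T ≤ ((J.filter fun l => |z l - (θ + h)| ≤ ρ).card : ℝ)} ≤
      ENNReal.ofReal (2 * ρ * J.card / T) := by
  classical
  let S : ℕ → Set ℝ := fun l => Set.Icc (z l - h - ρ) (z l - h + ρ)
  let f : ℝ → ℝ≥0∞ := fun θ => ∑ l ∈ J, (S l).indicator (fun _ => (1 : ℝ≥0∞)) θ
  have hf : Measurable f := Finset.measurable_sum _ fun l _ => measurable_const.indicator measurableSet_Icc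
  have hfval : ∀ θ, f θ = ((J.filter fun l => |z l - (θ + h)| ≤ ρ).card : ℝ≥0∞) := by
    intro θ
    change ∑ l ∈ J, (S l).indicator (fun _ => (1 : ℝ≥0∞)) θ = _
    rw [Finset.card_filter]
    push_cast
    refine Finset.sum_congr rfl fun l _ => ?_
    by_cases hl : |z l - (θ + h)| ≤ ρ
    · rw [if_pos hl, Set.indicator_of_mem]
      have := abs_le.1 hl
      exact ⟨by linarith, by linarith⟩
    · rw [if_neg hl, Set.indicator_of_notMem]
      intro hm
      apply hl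
      rw [abs_le]
      exact ⟨by linarith [hm.2], by linarith [hm.1]⟩
  have hint : ∫⁻ θ, f θ = ENNReal.ofReal (2 * ρ * J.card) := by
    change ∫⁻ θ, ∑ l ∈ J, (S l).indicator (fun _ => (1 : ℝ≥0∞)) θ = _
    rw [lintegral_finsetSum _ fun l _ => measurable_const.indicator measurableSet_Icc]
    have h1 : ∀ l ∈ J, ∫⁻ θ, (S l).indicator (fun _ => (1 : ℝ≥0∞)) θ = ENNReal.ofReal (2 * ρ) := by
      intro l _
      rw [lintegral_indicator_const measurableSet_Icc, one_mul, Real.volume_Icc]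
      congr 1
      ring
    rw [Finset.sum_congr rfl h1, Finset.sum_const, nsmul_eq_mul,
      ENNReal.ofReal_mul (p := 2 * ρ) (by positivity), ENNReal.ofReal_natCast, mul_comm]
  have h2 := mul_meas_ge_le_lintegral₀ (μ := volume) hf.aemeasurable (ENNReal.ofReal T)
  have h3 : {θ : ℝ | T ≤ ((J.filter fun l => |z l - (θ + h)| ≤ ρ).card : ℝ)} =
      {θ : ℝ | ENNReal.ofReal T ≤ f θ} := by
    ext θ
    change T ≤ _ ↔ ENNReal.ofReal T ≤ f θ
    rw [hfval, ← ENNReal.ofReal_natCast, ENNReal.ofReal_le_ofReal_iff (Nat.cast_nonneg _)]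
  rw [h3]
  rw [hint] at h2
  rw [ENNReal.ofReal_div_of_pos hT]
  rw [ENNReal.le_div_iff_mul_le (Or.inl (by simpa using hT)) (Or.inl ENNReal.ofReal_ne_top), mul_comm]
  exact h2

/-- The number of the cells at the time `t`. -/
theorem cells {d : ℕ} (δ : ℝ) (hδ : 0 < δ) (V : Finset (Fin d → ℝ))
    (B : (Fin d → ℝ) → Fin d → ℝ) (t : ℝ) (J : Finset ℕ) (z : ℕ → Fin d → ℝ)
    (h : ∀ v ∈ V, ∃ l ∈ J, ∀ i, |z l i - (B v i + t * v i)| ≤ 2 * δ) :
    ((V.image (pos δ B t)).card : ℝ) ≤ 5 ^ d * J.card := by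
  classical
  have hsub : V.image (pos δ B t) ⊆ (J ×ˢ Fintype.piFinset (fun _ : Fin d => Finset.Icc (-2 : ℤ) 2)).image
      (fun u => fun i => ⌊z u.1 i / δ⌋ + u.2 i) := by
    intro g hg
    rw [Finset.mem_image] at hg
    obtain ⟨v, hv, rfl⟩ := hg
    obtain ⟨l, hl, hz⟩ := h v hv
    refine Finset.mem_image.2 ⟨(l, fun i => pos δ B t v i - ⌊z l i / δ⌋), Finset.mem_product.2
      ⟨hl, ?_⟩, ?_⟩
    · rw [Fintype.mem_piFinset]
      intro i
      rw [Finset.mem_Icc]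
      change -2 ≤ ⌊(B v i + t * v i) / δ⌋ - ⌊z l i / δ⌋ ∧ ⌊(B v i + t * v i) / δ⌋ - ⌊z l i / δ⌋ ≤ 2
      have h1 : |z l i / δ - (B v i + t * v i) / δ| ≤ 2 := by
        rw [← sub_div, abs_div, abs_of_pos hδ, div_le_iff₀ hδ]
        exact hz i
      have h2 := abs_le.1 h1
      have e1 := Int.floor_le (z l i / δ)
      have e2 := Int.lt_floor_add_one (z l i / δ)
      have e3 := Int.floor_le ((B v i + t * v i) / δ)
      have e4 := Int.lt_floor_add_one ((B v i + t * v i) / δ)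
      constructor
      · have h3 : ((⌊z l i / δ⌋ - ⌊(B v i + t * v i) / δ⌋ : ℤ) : ℝ) < 3 := by
          push_cast
          linarith [h2.2]
        have h4 : ⌊z l i / δ⌋ - ⌊(B v i + t * v i) / δ⌋ < 3 := by exact_mod_cast h3
        omega
      · have h3 : ((⌊(B v i + t * v i) / δ⌋ - ⌊z l i / δ⌋ : ℤ) : ℝ) < 3 := by
          push_cast
          linarith [h2.1]
        have h4 : ⌊(B v i + t * v i) / δ⌋ - ⌊z l i / δ⌋ < 3 := by exact_mod_cast h3
        omega
    · funext i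
      change ⌊z l i / δ⌋ + (pos δ B t v i - ⌊z l i / δ⌋) = pos δ B t v i
      ring
  have h1 := (Finset.card_le_card hsub).trans Finset.card_image_le
  rw [Finset.card_product, Fintype.card_piFinset, Finset.prod_const, Finset.card_univ,
    Fintype.card_fin, Int.card_Icc] at h1
  have h2 : ((V.image (pos δ B t)).card : ℝ) ≤ ((J.card * ((2 + 1 - -2 : ℤ).toNat) ^ d : ℕ) : ℝ) := by
    exact_mod_cast h1
  have h3 : (2 + 1 - -2 : ℤ).toNat = 5 := rfl
  rw [h3] at h2
  refine h2.trans (le_of_eq ?_)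
  push_cast
  rw [mul_comm]

/-- A separated subset. -/
theorem sep_subset {d : ℕ} (W : Set (Fin d → ℝ)) (hW : ∀ v ∈ W, ∀ i, 0 ≤ v i ∧ v i ≤ 1) (s : ℝ)
    (hs : 0 < s) :
    ∃ V : Finset (Fin d → ℝ), (∀ v ∈ V, v ∈ W) ∧
      (∀ v ∈ V, ∀ w ∈ V, v ≠ w → ∃ i, s ≤ |v i - w i|) ∧
      volume W ≤ ENNReal.ofReal (V.card * (2 * s) ^ d) := by
  classical
  obtain ⟨Pr, hPr⟩ : ∃ Pr : Finset (Fin d → ℝ) → Prop, ∀ V, Pr V ↔ ((∀ v ∈ V, v ∈ W) ∧
    ∀ v ∈ V, ∀ w ∈ V, v ≠ w → ∃ i, s ≤ |v i - w i|) := ⟨_, fun V => Iff.rfl⟩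
  obtain ⟨G, hG⟩ : ∃ G : Finset (Fin d → ℤ), G = Fintype.piFinset
    (fun _ : Fin d => Finset.Icc (0 : ℤ) ⌊1 / s⌋) := ⟨_, rfl⟩
  have hbd : ∀ V, Pr V → V.card ≤ G.card := by
    intro V hV
    rw [hPr] at hV
    refine Finset.card_le_card_of_injOn (fun v i => ⌊v i / s⌋) ?_ ?_
    · intro v hv
      rw [Finset.mem_coe, hG, Fintype.mem_piFinset]
      intro i
      have h1 := hW v (hV.1 v hv) i
      rw [Finset.mem_Icc]
      constructor
      · exact Int.floor_nonneg.2 (div_nonneg h1.1 hs.le)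
      · exact Int.floor_le_floor (by gcongr; exact h1.2)
    · intro v hv w hw hvw
      by_contra hne
      obtain ⟨i, hi⟩ := hV.2 v hv w hw hne
      have h1 : ⌊v i / s⌋ = ⌊w i / s⌋ := congrFun hvw i
      have h2 := Int.abs_sub_lt_one_of_floor_eq_floor h1
      rw [← sub_div, abs_div, abs_of_pos hs, div_lt_one hs] at h2
      linarith
  obtain ⟨V, hV, hmax⟩ : ∃ V, Pr V ∧ ∀ V', Pr V' → V'.card ≤ V.card := by
    have hne : ({n : ℕ | ∃ V, Pr V ∧ V.card = n} : Set ℕ).Nonempty :=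
      ⟨0, ∅, (hPr _).2 ⟨fun v hv => absurd hv (Finset.notMem_empty v),
        fun v hv => absurd hv (Finset.notMem_empty v)⟩, Finset.card_empty⟩
    have hba : BddAbove ({n : ℕ | ∃ V, Pr V ∧ V.card = n} : Set ℕ) :=
      ⟨G.card, by rintro n ⟨V, hV, rfl⟩; exact hbd V hV⟩
    obtain ⟨V, hV, hVc⟩ := Nat.sSup_mem hne hba
    refine ⟨V, hV, fun V' hV' => ?_⟩
    rw [hVc]
    exact le_csSup hba ⟨V', hV', rfl⟩
  rw [hPr] at hV
  refine ⟨V, hV.1, hV.2, ?_⟩
  have hcov : W ⊆ ⋃ v ∈ V, {w : Fin d → ℝ | ∀ i, v i - s ≤ w i ∧ w i < v i + s} := by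
    intro w hw
    rw [Set.mem_iUnion₂]
    by_contra hcon
    push Not at hcon
    have hfar : ∀ v ∈ V, ∃ i, s ≤ |v i - w i| := by
      intro v hv
      by_contra hc
      push Not at hc
      apply hcon v hv
      intro i
      have h1 := abs_lt.1 (hc i)
      exact ⟨by linarith [h1.2], by linarith [h1.1]⟩
    have hnot : w ∉ V := by
      intro hwV
      apply hcon w hwV
      intro i
      exact ⟨by linarith, by linarith⟩
    have h1 : Pr (insert w V) := by
      rw [hPr]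
      constructor
      · intro v hv
        rcases Finset.mem_insert.1 hv with rfl | hv
        · exact hw
        · exact hV.1 v hv
      · intro v hv u hu hne
        rcases Finset.mem_insert.1 hv with h1 | hv
        · rcases Finset.mem_insert.1 hu with h2 | hu
          · exact absurd (h1.trans h2.symm) hne
          · obtain ⟨i, hi⟩ := hfar u hu
            refine ⟨i, ?_⟩
            rw [h1, abs_sub_comm]
            exact hi
        · rcases Finset.mem_insert.1 hu with h2 | hu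
          · obtain ⟨i, hi⟩ := hfar v hv
            refine ⟨i, ?_⟩
            rw [h2]
            exact hi
          · exact hV.2 v hv u hu hne
    have h2 := hmax _ h1
    rw [Finset.card_insert_of_notMem hnot] at h2
    omega
  refine (measure_mono hcov).trans ((measure_biUnion_finset_le _ _).trans ?_)
  have hvol : ∀ v ∈ V, volume {w : Fin d → ℝ | ∀ i, v i - s ≤ w i ∧ w i < v i + s} ≤
      ENNReal.ofReal ((2 * s) ^ d) := by
    intro v _
    have h1 : {w : Fin d → ℝ | ∀ i, v i - s ≤ w i ∧ w i < v i + s} =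
        Set.pi Set.univ (fun i => Set.Ico (v i - s) (v i + s)) := by
      ext w
      simp only [Set.mem_pi, Set.mem_univ, true_implies, Set.mem_Ico]
      rfl
    rw [h1, Real.volume_pi_Ico]
    have h2 : ∀ i : Fin d, ENNReal.ofReal (v i + s - (v i - s)) = ENNReal.ofReal (2 * s) := by
      intro i
      congr 1
      ring
    rw [Finset.prod_congr rfl fun i _ => h2 i, Finset.prod_const, Finset.card_univ,
      Fintype.card_fin, ENNReal.ofReal_pow (by positivity)]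
  refine (Finset.sum_le_sum hvol).trans ?_
  rw [Finset.sum_const, nsmul_eq_mul, ENNReal.ofReal_mul (by positivity), ENNReal.ofReal_natCast]

/-- The sets of a cover with a bounded index. -/
theorem classes (κ : ℕ → ℕ) (α : ℝ) (hα : 0 < α)
    (h : ∀ (k : ℕ) (S : Finset ℕ), (∀ i ∈ S, κ i = k) → (S.card : ℝ) ≤ (2 : ℝ) ^ (α * (k + 1))) :
    ∀ n : ℕ, ∃ J : Finset ℕ, (∀ l, l ∈ J ↔ κ l < n) ∧
      (J.card : ℝ) ≤ (2 : ℝ) ^ α / ((2 : ℝ) ^ α - 1) * (2 : ℝ) ^ (α * n) := by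
  have hr : 1 < (2 : ℝ) ^ α := Real.one_lt_rpow (by norm_num) hα
  have hr0 : 0 < (2 : ℝ) ^ α - 1 := by linarith
  intro n
  induction n with
  | zero =>
    refine ⟨∅, fun l => by simp, ?_⟩
    rw [Finset.card_empty, Nat.cast_zero]
    positivity
  | succ n ih =>
    obtain ⟨J, hJ1, hJ2⟩ := ih
    have hfin : {i : ℕ | κ i = n}.Finite := by
      by_contra hinf
      obtain ⟨m, hm⟩ := exists_nat_gt ((2 : ℝ) ^ (α * (n + 1)))
      obtain ⟨S, hS1, hS2⟩ := Set.Infinite.exists_subset_card_eq hinf m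
      have h1 := h n S (fun i hi => hS1 hi)
      rw [hS2] at h1
      linarith
    refine ⟨J ∪ hfin.toFinset, ?_, ?_⟩
    · intro l
      rw [Finset.mem_union, hJ1, Set.Finite.mem_toFinset]
      change κ l < n ∨ κ l = n ↔ κ l < n + 1
      omega
    · have h1 : ((J ∪ hfin.toFinset).card : ℝ) ≤ J.card + hfin.toFinset.card := by
        exact_mod_cast Finset.card_union_le _ _
      have h2 := h n hfin.toFinset (fun i hi => by
        rw [Set.Finite.mem_toFinset] at hi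
        exact hi)
      refine h1.trans ((add_le_add hJ2 h2).trans (le_of_eq ?_))
      have h3 : (2 : ℝ) ^ (α * ((n + 1 : ℕ) : ℝ)) = (2 : ℝ) ^ (α * n) * (2 : ℝ) ^ α := by
        rw [← Real.rpow_add (by norm_num)]
        congr 1
        push_cast
        ring
      have h4 : (2 : ℝ) ^ (α * ((n : ℝ) + 1)) = (2 : ℝ) ^ (α * n) * (2 : ℝ) ^ α := by
        rw [← Real.rpow_add (by norm_num)]
        congr 1
        ring
      rw [h3, h4]
      field_simp
      ring

/-- Every index belongs to a block. -/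
theorem block (L A N κ : ℕ) (hL : 1 ≤ L) (hA : 2 ≤ A) (hN : 1 ≤ N) (h : L * N ≤ κ) :
    ∃ k i : ℕ, N ≤ i ∧ i < A * N ∧ L * A ^ k * i ≤ κ ∧ κ < L * A ^ k * (i + 1) := by
  obtain ⟨m, hm⟩ : ∃ m, m = κ / L := ⟨_, rfl⟩
  have hm1 : N ≤ m := by
    rw [hm, Nat.le_div_iff_mul_le hL, mul_comm]
    exact h
  have hm2 : L * m ≤ κ := by rw [hm]; exact Nat.mul_div_le _ _
  have hm3 : κ < L * (m + 1) := by
    rw [hm]
    exact Nat.lt_mul_div_succ _ hL
  obtain ⟨k, hk⟩ : ∃ k, k = Nat.log A (m / N) := ⟨_, rfl⟩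
  have hmN : m / N ≠ 0 := by
    have : 1 ≤ m / N := (Nat.one_le_div_iff hN).2 hm1
    omega
  have hk1 : A ^ k ≤ m / N := by rw [hk]; exact Nat.pow_log_le_self A hmN
  have hk2 : m / N < A ^ (k + 1) := by rw [hk]; exact Nat.lt_pow_succ_log_self (by omega) _
  have hAk : 0 < A ^ k := by positivity
  have hk1' : A ^ k * N ≤ m := by
    rw [Nat.le_div_iff_mul_le hN] at hk1
    exact hk1
  have hk2' : m < A ^ (k + 1) * N := by
    rw [Nat.div_lt_iff_lt_mul hN] at hk2
    exact hk2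
  obtain ⟨i, hi⟩ : ∃ i, i = m / A ^ k := ⟨_, rfl⟩
  have hi1 : A ^ k * i ≤ m := by rw [hi]; exact Nat.mul_div_le _ _
  have hi2 : m < A ^ k * (i + 1) := by
    rw [hi]
    exact Nat.lt_mul_div_succ _ hAk
  refine ⟨k, i, ?_, ?_, ?_, ?_⟩
  · rw [hi, Nat.le_div_iff_mul_le hAk, mul_comm]
    exact hk1'
  · rw [hi, Nat.div_lt_iff_lt_mul hAk]
    calc m < A ^ (k + 1) * N := hk2'
      _ = A * N * A ^ k := by ring
  · calc L * A ^ k * i = L * (A ^ k * i) := by ring
      _ ≤ L * m := Nat.mul_le_mul_left _ hi1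
      _ ≤ κ := hm2
  · calc κ < L * (m + 1) := hm3
      _ ≤ L * (A ^ k * (i + 1)) := Nat.mul_le_mul_left _ hi2
      _ = L * A ^ k * (i + 1) := by ring

end Pool.Agent.W5h51.KH
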