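import Pool.Agent.Y674.HK.Haus

/-!
# Segments in many directions: graphs over a common interval, with slopes in the unit cube
-/

set_option autoImplicit false

open MeasureTheory
open scoped ENNReal

namespace Pool.Agent.W5h51.KH

open Pool.Agent.W605.HD Pool.Agent.Y674.HK

/-- a segment which is not horizontal is a graph over an interval of the first axis -/
theorem seg_graph (d : ℕ) (K : Set (EuclideanSpace ℝ (Fin (d + 1))))
    (a e : EuclideanSpace ℝ (Fin (d + 1))) (he : e 0 ≠ 0) (δ : ℝ) (hδ : 0 < δ)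
    (h : ∀ t ∈ Set.Icc (0 : ℝ) δ, a + t • e ∈ K) :
    ∃ b : Fin d → ℝ, ∃ p q : ℝ, p < q ∧ ∀ x : ℝ, p ≤ x → x ≤ q →
      pt d x (fun i => b i + x * sl d e i) ∈ K := by
  have key : ∀ t ∈ Set.Icc (0 : ℝ) δ, pt d (a 0 + t * e 0)
      (fun i => (a (Fin.succ i) - a 0 * sl d e i) + (a 0 + t * e 0) * sl d e i) ∈ K := by
    intro t ht
    have h2 : a + t • e = pt d (a 0 + t * e 0)
        (fun i => (a (Fin.succ i) - a 0 * sl d e i) + (a 0 + t * e 0) * sl d e i) := by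
      ext l
      refine Fin.cases ?_ (fun i => ?_) l
      · simp only [PiLp.add_apply, PiLp.smul_apply, smul_eq_mul, pt_zero]
      · simp only [PiLp.add_apply, PiLp.smul_apply, smul_eq_mul, pt_succ, sl]
        field_simp
        ring
    rw [← h2]
    exact h t ht
  have key2 : ∀ x : ℝ, (x - a 0) / e 0 ∈ Set.Icc (0 : ℝ) δ → pt d x
      (fun i => (a (Fin.succ i) - a 0 * sl d e i) + x * sl d e i) ∈ K := by
    intro x hx
    have h1 := key _ hx
    have h2 : a 0 + (x - a 0) / e 0 * e 0 = x := by field_simp; ring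
    rw [h2] at h1
    exact h1
  rcases lt_or_gt_of_ne he with h0 | h0
  · refine ⟨_, a 0 + δ * e 0, a 0, by nlinarith, fun x h1 h2 => key2 x ⟨?_, ?_⟩⟩
    · exact div_nonneg_of_nonpos (by linarith) h0.le
    · rw [div_le_iff_of_neg h0]; linarith
  · refine ⟨_, a 0, a 0 + δ * e 0, by nlinarith, fun x h1 h2 => key2 x ⟨?_, ?_⟩⟩
    · exact div_nonneg (by linarith) h0.le
    · rw [div_le_iff₀ h0]; linarith

/-- Many of the segments are graphs over a common interval, with many slopes in the unit cube,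
after a shear. -/
theorem slopesI (d : ℕ) (U : Set (Metric.sphere (0 : EuclideanSpace ℝ (Fin (d + 1))) 1))
    (K : Set (EuclideanSpace ℝ (Fin (d + 1))))
    (hK : ∀ e ∈ U, ∃ (a : EuclideanSpace ℝ (Fin (d + 1))) (δ : ℝ), 0 < δ ∧
      ∀ t ∈ Set.Icc (0 : ℝ) δ, a + t • (e : EuclideanSpace ℝ (Fin (d + 1))) ∈ K)
    (hU : (volume : Measure (EuclideanSpace ℝ (Fin (d + 1)))).toSphere U ≠ 0) :
    ∃ (g : Fin d → ℤ) (h0 : ℝ) (V : Set (Fin d → ℝ)) (B : (Fin d → ℝ) → Fin d → ℝ) (y : ℝ),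
      0 < y ∧ y ≤ 1 ∧ (∀ v ∈ V, ∀ i, 0 ≤ v i ∧ v i ≤ 1) ∧ volume V ≠ 0 ∧
      ∀ v ∈ V, ∀ τ : ℝ, 0 ≤ τ → τ ≤ y →
        pt d (h0 + τ) (fun i => B v i + τ * v i) ∈ shr d g '' K := by
  obtain ⟨V0, hV0⟩ : ∃ V0 : Set (Fin d → ℝ), V0 = {w | ∃ b : Fin d → ℝ, ∃ p q : ℝ, p < q ∧
    ∀ x : ℝ, p ≤ x → x ≤ q → pt d x (fun i => b i + x * w i) ∈ K} := ⟨_, rfl⟩
  have hvol : volume V0 ≠ 0 := by
    intro h0
    apply hU
    refine sphere_null d _ (N := toMeasurable volume V0) (measurableSet_toMeasurable _ _)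
      (by rw [measure_toMeasurable, h0]) ?_
    intro e he
    obtain ⟨a, δ, hδ, ha⟩ := hK _ he
    by_cases he0 : (e : EuclideanSpace ℝ (Fin (d + 1))) 0 = 0
    · exact Or.inl he0
    · right
      apply subset_toMeasurable
      rw [hV0]
      exact seg_graph d K a _ he0 δ hδ ha
  have hex : ∀ w : Fin d → ℝ, ∃ b : Fin d → ℝ, w ∈ V0 → ∃ p q : ℝ, p < q ∧
      ∀ x : ℝ, p ≤ x → x ≤ q → pt d x (fun i => b i + x * w i) ∈ K := by
    intro w
    by_cases hw : w ∈ V0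
    · rw [hV0] at hw
      obtain ⟨b, hb⟩ := hw
      exact ⟨b, fun _ => hb⟩
    · exact ⟨0, fun h => absurd h hw⟩
  choose b hb using hex
  let W : (Fin d → ℤ) × ℤ × ℕ → Set (Fin d → ℝ) := fun p => {w | (∀ i, ⌊w i⌋ = p.1 i) ∧
    ∀ x : ℝ, (p.2.1 : ℝ) / (p.2.2 + 1) ≤ x → x ≤ ((p.2.1 : ℝ) + 1) / (p.2.2 + 1) →
      pt d x (fun i => b w i + x * w i) ∈ K}
  have hcov : V0 ⊆ ⋃ p, W p := by
    intro w hw
    obtain ⟨p, q, hpq, hx⟩ := hb w hw
    obtain ⟨m, hm⟩ := exists_nat_gt (2 / (q - p))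
    have hqp : 0 < q - p := by linarith
    have hm1 : (0 : ℝ) < (m : ℝ) + 1 := by positivity
    have hm2 : 2 / ((m : ℝ) + 1) ≤ q - p := by
      rw [div_lt_iff₀ hqp] at hm
      rw [div_le_iff₀ hm1]
      nlinarith
    have h1 := Int.le_ceil (p * (m + 1))
    have h2 := Int.ceil_lt_add_one (p * ((m : ℝ) + 1))
    refine Set.mem_iUnion.2 ⟨(fun i => ⌊w i⌋, ⌈p * ((m : ℝ) + 1)⌉, m), fun i => rfl, ?_⟩
    intro x hx1 hx2
    refine hx x (le_trans ?_ hx1) (hx2.trans ?_)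
    · rw [le_div_iff₀ hm1]
      exact h1
    · have h3 : ((⌈p * ((m : ℝ) + 1)⌉ : ℝ) + 1) / (m + 1) ≤ p + 2 / ((m : ℝ) + 1) := by
        rw [div_le_iff₀ hm1, add_mul, div_mul_cancel₀ _ hm1.ne']
        linarith
      linarith
  have hex2 : ∃ p, volume (W p) ≠ 0 := by
    by_contra hcon
    push Not at hcon
    exact hvol (measure_mono_null hcov (measure_iUnion_null hcon))
  obtain ⟨⟨g, q, m⟩, hp⟩ := hex2
  have hm1 : (0 : ℝ) < (m : ℝ) + 1 := by positivity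
  refine ⟨g, q / (m + 1), (fun v : Fin d → ℝ => v + fun i => (g i : ℝ)) ⁻¹' W (g, q, m),
    fun v i => b (v + fun i => (g i : ℝ)) i + q / (m + 1) * v i, 1 / (m + 1), by positivity, ?_,
    ?_, ?_, ?_⟩
  · rw [div_le_one hm1]
    have : (0 : ℝ) ≤ m := Nat.cast_nonneg m
    linarith
  · rintro v ⟨hv, -⟩ i
    have h1 : (g i : ℝ) ≤ v i + g i ∧ v i + g i < (g i : ℝ) + 1 := Int.floor_eq_iff.1 (hv i)
    constructor
    · linarith [h1.1]
    · linarith [h1.2]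
  · rw [measure_preimage_add_right]
    exact hp
  · rintro v ⟨-, hv⟩ τ hτ1 hτ2
    refine ⟨_, hv (q / (m + 1) + τ) ?_ ?_, ?_⟩
    · simp only
      linarith
    · simp only
      rw [add_div]
      linarith
    ext l
    refine Fin.cases ?_ (fun i => ?_) l
    · rfl
    · change (b (v + fun i => (g i : ℝ)) i + ((q : ℝ) / (m + 1) + τ) * (v i + g i)) -
        ((q : ℝ) / (m + 1) + τ) * g i =
        (b (v + fun i => (g i : ℝ)) i + (q : ℝ) / (m + 1) * v i) + τ * v i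
      ring

end Pool.Agent.W5h51.KH
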