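import Pool.Agent.W5h51.KH.Vdw
import Pool.Agent.W5h51.KH.Slope
import Pool.Agent.W5h51.KH.Count

/-!
# Hausdorff dimension of Kakeya sets from the sums-differences inequality
-/

set_option autoImplicit false

open MeasureTheory Finset
open scoped ENNReal NNReal

namespace Pool.Agent.W5h51.KH

open Pool.Agent.W46.KK Pool.Agent.W605.HD Pool.Agent.Y674.HK

/-- the final numerical contradiction -/
theorem numeric {c γ α E0 w n y y1 c1 C Cα T j η ℓ : ℝ} {d A N k K K' L : ℕ} (hc : 1 ≤ c)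
    (hα : 0 ≤ α) (hγ : γ = d - c * (α - 1)) (hγ0 : 0 < γ) (hA : 1 ≤ A) (hN : 1 ≤ N)
    (hdA : (d : ℝ) / A ≤ γ / 4) (hcN : c * α / N ≤ γ / 4) (hℓ : ℓ = Real.log 2)
    (hw : 1 ≤ w) (hy : 0 < y) (hy1 : 0 < y1) (hc1 : 0 < c1) (hC : 1 ≤ C) (hCα : 0 ≤ Cα)
    (hE0 : E0 = -Real.log y1 + d * (Real.log 4 - Real.log c1) +
      c * (Real.log C + d * Real.log 5 + Real.log (16 / y) + Real.log (Cα + 1)))
    (hL : |E0| + (1 + c) * Real.log w < L * ℓ * γ / 2)
    (hη : c1 * (2 : ℝ) ^ (-((K : ℝ) / A)) ≤ η)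
    (h1 : y1 / w ^ (k + 1) ≤ n * (4 * (1 / 2 : ℝ) ^ K / η) ^ d)
    (h2 : n ≤ (C * (5 ^ d * T)) ^ c)
    (hT : T = 16 / y * (1 / 2 : ℝ) ^ K * (j + 1) * w ^ (k + 1))
    (hj0 : 0 ≤ j) (hj : j ≤ Cα * (2 : ℝ) ^ (α * K'))
    (hK' : (K' : ℝ) ≤ K * (1 + 1 / N)) (hK : L * (k + 1) ≤ K) : False := by
  have hℓ0 : 0 < ℓ := by rw [hℓ]; exact Real.log_pos (by norm_num)
  have hw0 : 0 < w := by linarith
  have hA0 : (0 : ℝ) < A := by exact_mod_cast hA
  have hN0 : (0 : ℝ) < N := by exact_mod_cast hN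
  have hη0 : 0 < η := lt_of_lt_of_le (by positivity) hη
  have hn0 : 0 < n := by
    have h3 : 0 < n * (4 * (1 / 2 : ℝ) ^ K / η) ^ d := lt_of_lt_of_le (by positivity) h1
    exact (pos_iff_pos_of_mul_pos h3).2 (by positivity)
  have hT0 : 0 < T := by rw [hT]; positivity
  have hlδ : Real.log ((1 / 2 : ℝ) ^ K) = -(K * ℓ) := by
    rw [Real.log_pow, one_div, Real.log_inv, hℓ]; ring
  have hlη : Real.log c1 - K * ℓ / A ≤ Real.log η := by
    have h3 := Real.log_le_log (by positivity) hη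
    rw [Real.log_mul hc1.ne' (by positivity), Real.log_rpow (by norm_num), ← hℓ] at h3
    have h4 : -((K : ℝ) / A) * ℓ = -(K * ℓ / A) := by ring
    rw [h4] at h3
    linarith
  have h3 : Real.log y1 - (k + 1) * Real.log w ≤
      Real.log n + d * (Real.log 4 - K * ℓ - Real.log η) := by
    have h4 := Real.log_le_log (by positivity) h1
    rw [Real.log_div hy1.ne' (by positivity), Real.log_pow, Real.log_mul hn0.ne' (by positivity),
      Real.log_pow, Real.log_div (by positivity) hη0.ne', Real.log_mul (by norm_num) (by positivity),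
      hlδ] at h4
    push_cast at h4
    have h5 : Real.log 4 + -(K * ℓ) - Real.log η = Real.log 4 - K * ℓ - Real.log η := by ring
    rw [h5] at h4
    exact h4
  have hlj : Real.log (j + 1) ≤ Real.log (Cα + 1) + α * (K * (1 + 1 / N)) * ℓ := by
    have h4 : j + 1 ≤ (Cα + 1) * (2 : ℝ) ^ (α * K') := by
      have h5 : (1 : ℝ) ≤ (2 : ℝ) ^ (α * K') := Real.one_le_rpow (by norm_num) (by positivity)
      nlinarith
    have h5 := Real.log_le_log (by positivity) h4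
    rw [Real.log_mul (by positivity) (by positivity), Real.log_rpow (by norm_num), ← hℓ] at h5
    have h6 : α * K' * ℓ ≤ α * (K * (1 + 1 / N)) * ℓ := by gcongr
    linarith
  have h4 : Real.log n ≤ c * (Real.log C + (d * Real.log 5 + Real.log T)) := by
    have h5 := Real.log_le_log hn0 h2
    rw [Real.log_rpow (by positivity), Real.log_mul (by positivity) (by positivity),
      Real.log_mul (by positivity) hT0.ne', Real.log_pow] at h5
    exact h5
  have hlT : Real.log T = Real.log (16 / y) - K * ℓ + Real.log (j + 1) + (k + 1) * Real.log w := by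
    rw [hT, Real.log_mul (by positivity) (by positivity), Real.log_mul (by positivity) (by positivity),
      Real.log_mul (by positivity) (by positivity), hlδ, Real.log_pow]
    push_cast
    ring
  obtain ⟨x, hx⟩ : ∃ x : ℝ, x = K * ℓ := ⟨_, rfl⟩
  have hx0 : 0 ≤ x := by rw [hx]; positivity
  have h5 : d * (Real.log c1 - x / A) ≤ d * Real.log η := by
    rw [hx]
    exact mul_le_mul_of_nonneg_left hlη (Nat.cast_nonneg d)
  have h6 : c * Real.log (j + 1) ≤ c * (Real.log (Cα + 1) + α * (1 + 1 / N) * x) := by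
    have h7 : α * (K * (1 + 1 / N)) * ℓ = α * (1 + 1 / N) * x := by rw [hx]; ring
    rw [h7] at hlj
    exact mul_le_mul_of_nonneg_left hlj (by linarith)
  rw [hlT] at h4
  rw [← hx] at h3 h4
  have h7 : x * γ ≤ E0 + (k + 1) * ((1 + c) * Real.log w) + x * (d / A) + x * (c * α / N) := by
    rw [hE0, hγ]
    have e1 : (d : ℝ) * (Real.log c1 - x / A) = d * Real.log c1 - x * (d / A) := by ring
    have e2 : c * (Real.log (Cα + 1) + α * (1 + 1 / N) * x) =
        c * Real.log (Cα + 1) + c * α * x + x * (c * α / N) := by ring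
    rw [e1] at h5
    rw [e2] at h6
    nlinarith
  have h8 : x * (d / A) ≤ x * (γ / 4) := mul_le_mul_of_nonneg_left hdA hx0
  have h9 : x * (c * α / N) ≤ x * (γ / 4) := mul_le_mul_of_nonneg_left hcN hx0
  have hKR : (L : ℝ) * (k + 1) ≤ K := by exact_mod_cast hK
  have h10 : (L : ℝ) * (k + 1) * ℓ ≤ x := by
    rw [hx]
    exact mul_le_mul_of_nonneg_right hKR hℓ0.le
  have h11 : (L : ℝ) * (k + 1) * ℓ * (γ / 2) ≤ x * (γ / 2) :=
    mul_le_mul_of_nonneg_right h10 (by linarith)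
  have hk0 : (0 : ℝ) ≤ k := Nat.cast_nonneg k
  have h12 : ((k : ℝ) + 1) * (|E0| + (1 + c) * Real.log w) < (k + 1) * (L * ℓ * γ / 2) :=
    mul_lt_mul_of_pos_left hL (by linarith)
  have h13 : E0 ≤ |E0| := le_abs_self _
  have h14 : 0 ≤ |E0| := abs_nonneg _
  nlinarith

theorem mainH {S : Finset ℚ} {c : ℝ} (h : SDS S c) (hc : 1 ≤ c) (d : ℕ)
    (U : Set (Metric.sphere (0 : EuclideanSpace ℝ (Fin (d + 1))) 1))
    (K : Set (EuclideanSpace ℝ (Fin (d + 1))))
    (hK : ∀ e ∈ U, ∃ (a : EuclideanSpace ℝ (Fin (d + 1))) (δ : ℝ), 0 < δ ∧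
      ∀ t ∈ Set.Icc (0 : ℝ) δ, a + t • (e : EuclideanSpace ℝ (Fin (d + 1))) ∈ K)
    (hU : (volume : Measure (EuclideanSpace ℝ (Fin (d + 1)))).toSphere U ≠ 0) :
    ENNReal.ofReal (1 + d / c) ≤ dimH K := by
  classical
  by_contra hcon
  rw [not_le] at hcon
  obtain ⟨α, hα1, hα2⟩ := ENNReal.lt_iff_exists_nnreal_btwn.1 hcon
  have hc0 : (0 : ℝ) < c := by linarith
  have hα3 : (α : ℝ) < 1 + d / c := by
    have h1 : ENNReal.ofReal (α : ℝ) < ENNReal.ofReal (1 + d / c) := by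
      rwa [ENNReal.ofReal_coe_nnreal]
    exact (ENNReal.ofReal_lt_ofReal_iff (by positivity)).1 h1
  have hα0 : (0 : ℝ) < α := by
    have h1 : (0 : ℝ≥0∞) < α := lt_of_le_of_lt bot_le hα1
    exact_mod_cast h1
  obtain ⟨γ, hγ⟩ : ∃ γ : ℝ, γ = d - c * (α - 1) := ⟨_, rfl⟩
  have hγ0 : 0 < γ := by
    rw [hγ]
    have h1 : ((α : ℝ) - 1) * c < d := by
      rw [← lt_div_iff₀ hc0]
      linarith
    linarith
  obtain ⟨A, hA2, hdA⟩ : ∃ A : ℕ, 2 ≤ A ∧ (d : ℝ) / A ≤ γ / 4 := by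
    obtain ⟨m, hm⟩ := exists_nat_gt (4 * d / γ)
    refine ⟨m + 2, by omega, ?_⟩
    rw [div_lt_iff₀ hγ0] at hm
    rw [div_le_iff₀ (by positivity)]
    push_cast
    nlinarith
  obtain ⟨N, hN1, hcN⟩ : ∃ N : ℕ, 1 ≤ N ∧ c * α / N ≤ γ / 4 := by
    obtain ⟨m, hm⟩ := exists_nat_gt (4 * (c * α) / γ)
    refine ⟨m + 1, by omega, ?_⟩
    rw [div_lt_iff₀ hγ0] at hm
    rw [div_le_iff₀ (by positivity)]
    push_cast
    nlinarith
  obtain ⟨X, hX⟩ : ∃ X : Finset ℝ, X = insert 1 (S.image (fun r : ℚ => (r : ℝ) / (1 + r))) := ⟨_, rfl⟩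
  have hX1 : (1 : ℝ) ∈ X := by rw [hX]; exact Finset.mem_insert_self _ _
  have hXr : ∀ r ∈ S, (r : ℝ) / (1 + r) ∈ X := fun r hr => by
    rw [hX]
    exact Finset.mem_insert_of_mem (Finset.mem_image_of_mem _ hr)
  have hXc : 1 ≤ X.card := Finset.card_pos.2 ⟨1, hX1⟩
  obtain ⟨M, CP, hM1, hCP1, hnest⟩ := nested X (Fin (A * N))
  obtain ⟨g, h0, V, B, y, hy0, hy1, hV01, hVpos, hVK⟩ := slopesI d U K hK hU
  obtain ⟨C, hC1, hcore⟩ := core h (by linarith : 0 ≤ c) d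
  have hVfin : volume V ≠ ⊤ := by
    have h1 : V ⊆ Set.Icc (0 : Fin d → ℝ) 1 := fun v hv =>
      ⟨fun i => (hV01 v hv i).1, fun i => (hV01 v hv i).2⟩
    refine ne_top_of_le_ne_top ?_ (measure_mono h1)
    rw [Real.volume_Icc_pi]
    simp
  obtain ⟨y1, hy1d⟩ : ∃ y : ℝ, y = (volume V).toReal := ⟨_, rfl⟩
  have hy1pos : 0 < y1 := by rw [hy1d]; exact ENNReal.toReal_pos hVpos hVfin
  have hy1V : ENNReal.ofReal y1 ≤ volume V := by rw [hy1d]; exact ENNReal.ofReal_toReal_le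
  obtain ⟨D, hD⟩ : ∃ D : ℕ, D = A * N * CP * X.card := ⟨_, rfl⟩
  have hD1 : 1 ≤ D := by
    rw [hD]
    exact Nat.one_le_iff_ne_zero.2 (by positivity)
  have hDR : (1 : ℝ) ≤ D := by exact_mod_cast hD1
  obtain ⟨w, hw⟩ : ∃ w : ℝ, w = 4 * (D : ℝ) := ⟨_, rfl⟩
  have hw1 : 1 ≤ w := by rw [hw]; linarith
  have hw0 : 0 < w := by linarith
  obtain ⟨c1, hc1⟩ : ∃ c1 : ℝ, c1 = y / (16 * M) := ⟨_, rfl⟩
  have hM0 : 0 < M := by linarith
  have hc1pos : 0 < c1 := by rw [hc1]; positivity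
  obtain ⟨Cα, hCα⟩ : ∃ Cα : ℝ, Cα = (2 : ℝ) ^ (α : ℝ) / ((2 : ℝ) ^ (α : ℝ) - 1) := ⟨_, rfl⟩
  have hCα0 : 0 ≤ Cα := by
    have hr : 1 < (2 : ℝ) ^ (α : ℝ) := Real.one_lt_rpow (by norm_num) hα0
    rw [hCα]
    exact div_nonneg (by linarith) (by linarith)
  obtain ⟨E0, hE0⟩ : ∃ E0 : ℝ, E0 = -Real.log y1 + d * (Real.log 4 - Real.log c1) +
      c * (Real.log C + d * Real.log 5 + Real.log (16 / y) + Real.log (Cα + 1)) := ⟨_, rfl⟩
  have hlog2 : 0 < Real.log 2 := Real.log_pos (by norm_num)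
  obtain ⟨L, hL1, hLE, hLy⟩ : ∃ L : ℕ, 1 ≤ L ∧
      |E0| + (1 + c) * Real.log w < L * Real.log 2 * γ / 2 ∧ (1 / 2 : ℝ) ^ (L * N) ≤ y / 16 := by
    obtain ⟨m1, hm1⟩ := exists_nat_gt ((|E0| + (1 + c) * Real.log w) / (Real.log 2 * γ / 2))
    obtain ⟨m2, hm2⟩ := exists_pow_lt_of_lt_one (by positivity : (0 : ℝ) < y / 16)
      (by norm_num : (1 / 2 : ℝ) < 1)
    refine ⟨m1 + m2 + 1, by omega, ?_, ?_⟩
    · rw [div_lt_iff₀ (by positivity)] at hm1
      push_cast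
      have h1 : 0 < Real.log 2 * γ / 2 := by positivity
      have h2 : (m1 : ℝ) * (Real.log 2 * γ / 2) ≤ (m1 + m2 + 1) * (Real.log 2 * γ / 2) := by
        apply mul_le_mul_of_nonneg_right _ h1.le
        have : (0 : ℝ) ≤ m2 := Nat.cast_nonneg _
        linarith
      have h3 : ((m1 : ℝ) + m2 + 1) * (Real.log 2 * γ / 2) = (m1 + m2 + 1) * Real.log 2 * γ / 2 := by
        ring
      linarith
    · refine (pow_le_pow_of_le_one (by norm_num) (by norm_num) ?_).trans hm2.le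
      nlinarith
  -- the scales
  obtain ⟨lam, hlamd⟩ : ∃ lam : ℕ → ℝ, ∀ k, lam k = (1 / 2 : ℝ) ^ (L * N * A ^ k) :=
    ⟨fun k => (1 / 2 : ℝ) ^ (L * N * A ^ k), fun k => rfl⟩
  have hlampos : ∀ k, 0 < lam k := fun k => by rw [hlamd]; positivity
  have hLN : 1 ≤ L * N := Nat.one_le_iff_ne_zero.2 (by positivity)
  have hlam2 : ∀ k, lam (k + 1) ≤ lam k / 2 := by
    intro k
    rw [hlamd, hlamd]
    have h1 : L * N * A ^ k + 1 ≤ L * N * A ^ (k + 1) := by
      have h2 : 1 ≤ L * N * A ^ k := Nat.one_le_iff_ne_zero.2 (by positivity)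
      calc L * N * A ^ k + 1 ≤ L * N * A ^ k * 2 := by omega
        _ ≤ L * N * A ^ k * A := Nat.mul_le_mul_left _ hA2
        _ = _ := by ring
    calc (1 / 2 : ℝ) ^ (L * N * A ^ (k + 1)) ≤ (1 / 2 : ℝ) ^ (L * N * A ^ k + 1) :=
        pow_le_pow_of_le_one (by norm_num) (by norm_num) h1
      _ = _ := by rw [pow_succ]; ring
  obtain ⟨P, hPcard, hP0, hPs, hPnest⟩ := hnest lam hlampos hlam2 (y / 4) (y / (16 * M)) (by positivity)
  obtain ⟨t, κ, ht1, ht2, ht3, ht4⟩ := cover (shr d g '' K) α ((dimH_shr d g K).trans_lt hα1) (L * N)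
  have hcls := classes κ α hα0 ht4
  choose J0 hJ1 hJ2 using hcls
  obtain ⟨J, hJ⟩ : ∃ J : ℕ → ℕ → Finset ℕ, ∀ k i,
      J k i = (J0 (L * A ^ k * (i + 1))).filter (fun l => L * A ^ k * i ≤ κ l) := ⟨_, fun k i => rfl⟩
  have hJmem : ∀ k i l, l ∈ J k i ↔ κ l < L * A ^ k * (i + 1) ∧ L * A ^ k * i ≤ κ l := by
    intro k i l
    rw [hJ, Finset.mem_filter, hJ1]
  have hJcard : ∀ k i, ((J k i).card : ℝ) ≤ Cα * (2 : ℝ) ^ ((α : ℝ) * ((L * A ^ k * (i + 1) : ℕ) : ℝ)) := by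
    intro k i
    rw [hCα, hJ]
    refine le_trans ?_ (hJ2 _)
    exact_mod_cast Finset.card_filter_le _ _
  obtain ⟨z, hz⟩ : ∃ z : ℕ → EuclideanSpace ℝ (Fin (d + 1)), ∀ l, (t l).Nonempty → z l ∈ t l := by
    have h1 : ∀ l, ∃ z : EuclideanSpace ℝ (Fin (d + 1)), (t l).Nonempty → z ∈ t l := by
      intro l
      by_cases hl : (t l).Nonempty
      · exact ⟨hl.some, fun _ => hl.some_mem⟩
      · exact ⟨0, fun h => absurd h hl⟩
    choose z hz using h1
    exact ⟨z, hz⟩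
  obtain ⟨δ, hδ⟩ : ∃ δ : ℕ → ℕ → ℝ, ∀ k i, δ k i = (1 / 2 : ℝ) ^ (L * A ^ k * i) := ⟨_, fun k i => rfl⟩
  have hδ0 : ∀ k i, 0 < δ k i := fun k i => by rw [hδ]; positivity
  obtain ⟨T, hT⟩ : ∃ T : ℕ → ℕ → ℝ, ∀ k i,
      T k i = 16 / y * δ k i * (((J k i).card : ℝ) + 1) * w ^ (k + 1) := ⟨_, fun k i => rfl⟩
  have hT0 : ∀ k i, 0 < T k i := fun k i => by rw [hT]; have := hδ0 k i; positivity
  -- the shift
  obtain ⟨θ, hθ1, hθ2, hθ⟩ : ∃ θ : ℝ, 0 ≤ θ ∧ θ ≤ y / 2 ∧ ∀ k (i : Fin (A * N)), ∀ p ∈ P k, ∀ x ∈ X,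
      (((J k i).filter fun l => |(z l 0 - h0) - (θ + (p.1 + p.2 * x))| ≤ 2 * δ k i).card : ℝ) <
        T k i := by
    by_contra hc'
    push Not at hc'
    obtain ⟨k, q, hq, hkq⟩ := pigeon2 (volume : Measure ℝ) (Set.Icc 0 (y / 2))
      (fun k => (Finset.univ : Finset (Fin (A * N))) ×ˢ ((P k ×ˢ X).image (fun u => u.1.1 + u.1.2 * u.2)))
      D hD1 (by
        intro k
        rw [Finset.card_product, Finset.card_univ, Fintype.card_fin]
        have h1 : ((P k ×ˢ X).image (fun u => u.1.1 + u.1.2 * u.2)).card ≤ CP ^ (k + 1) * X.card := by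
          refine Finset.card_image_le.trans ?_
          rw [Finset.card_product]
          exact Nat.mul_le_mul_right _ (hPcard k)
        calc A * N * _ ≤ A * N * (CP ^ (k + 1) * X.card) := Nat.mul_le_mul_left _ h1
          _ ≤ (A * N) ^ (k + 1) * (CP ^ (k + 1) * X.card ^ (k + 1)) := by
            apply Nat.mul_le_mul (Nat.le_self_pow (Nat.succ_ne_zero _) _)
            exact Nat.mul_le_mul_left _ (Nat.le_self_pow (Nat.succ_ne_zero _) _)
          _ = D ^ (k + 1) := by rw [hD, mul_pow, mul_pow]; ring)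
      (fun k q => {θ : ℝ | T k q.1 ≤
        (((J k q.1).filter fun l => |(z l 0 - h0) - (θ + q.2)| ≤ 2 * δ k q.1).card : ℝ)})
      (by
        intro θ hθ
        obtain ⟨k, i, p, hp, x, hx, h1⟩ := hc' θ hθ.1 hθ.2
        exact ⟨k, (i, p.1 + p.2 * x), Finset.mem_product.2 ⟨Finset.mem_univ _,
          Finset.mem_image.2 ⟨(p, x), Finset.mem_product.2 ⟨hp, hx⟩, rfl⟩⟩, h1⟩)
      (y / 2) (by positivity) (by rw [Real.volume_Icc]; exact ENNReal.ofReal_le_ofReal (by linarith))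
    have h1 := markov (J k q.1) (fun l => z l 0 - h0) (2 * δ k q.1) q.2 (T k q.1)
      (by have := hδ0 k q.1; positivity) (hT0 k q.1)
    have h2 := (ENNReal.ofReal_le_ofReal_iff (by have := hδ0 k q.1; have := hT0 k q.1; positivity)).1
      (hkq.trans h1)
    rw [← hw, hT] at h2
    have h3 := hδ0 k q.1
    have h4 : (0 : ℝ) ≤ ((J k q.1).card : ℝ) := Nat.cast_nonneg _
    have h5 : 2 * (2 * δ k q.1) * ((J k q.1).card : ℝ) /
        (16 / y * δ k q.1 * (((J k q.1).card : ℝ) + 1) * w ^ (k + 1)) =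
        y / 4 / w ^ (k + 1) * (((J k q.1).card : ℝ) / (((J k q.1).card : ℝ) + 1)) := by
      field_simp
      ring
    rw [h5] at h2
    have h6 : ((J k q.1).card : ℝ) / (((J k q.1).card : ℝ) + 1) ≤ 1 := by
      rw [div_le_one (by positivity)]
      linarith
    have h7 : y / 4 / w ^ (k + 1) * (((J k q.1).card : ℝ) / (((J k q.1).card : ℝ) + 1)) ≤
        y / 4 / w ^ (k + 1) * 1 := mul_le_mul_of_nonneg_left h6 (by positivity)
    have h8 : y / 2 / w ^ (k + 1) = y / 4 / w ^ (k + 1) * 2 := by ring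
    have h9 : 0 < y / 4 / w ^ (k + 1) := by positivity
    linarith
  -- the good slopes
  obtain ⟨E, hE⟩ : ∃ E : (Fin d → ℝ) → ℕ → Fin (A * N) → Set ℝ, ∀ v k i, E v k i =
      {τ : ℝ | N ≤ (i : ℕ) ∧ ∃ l ∈ J k i,
        pt d (h0 + (τ + θ)) (fun m => B v m + (τ + θ) * v m) ∈ t l} := ⟨_, fun v k i => rfl⟩
  obtain ⟨k, q, hq, hkq⟩ := pigeon2 (volume : Measure (Fin d → ℝ)) V
    (fun k => (Finset.univ : Finset (Fin (A * N))) ×ˢ P k) D hD1 (by
      intro k
      rw [Finset.card_product, Finset.card_univ, Fintype.card_fin]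
      calc A * N * (P k).card ≤ A * N * CP ^ (k + 1) := Nat.mul_le_mul_left _ (hPcard k)
        _ ≤ (A * N) ^ (k + 1) * (CP ^ (k + 1) * X.card ^ (k + 1)) := by
          apply Nat.mul_le_mul (Nat.le_self_pow (Nat.succ_ne_zero _) _)
          exact Nat.le_mul_of_pos_right _ (by positivity)
        _ = D ^ (k + 1) := by rw [hD, mul_pow, mul_pow]; ring)
    (fun k q => {v : Fin d → ℝ | v ∈ V ∧ ∀ x ∈ X, ∃ τ ∈ E v k q.1,
      |τ - (q.2.1 + q.2.2 * x)| ≤ lam (k + 1)})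
    (by
      intro v hv
      obtain ⟨k, i, p, hp, h1⟩ := hPnest (y / 8) (3 * y / 8) (by
          have h2 : M * (y / (16 * M)) = y / 16 := by field_simp
          rw [h2, hlamd 0]
          simp only [pow_zero, mul_one]
          linarith) (by
          have h2 : M * (y / (16 * M)) = y / 16 := by field_simp
          rw [h2, hlamd 0]
          simp only [pow_zero, mul_one]
          linarith) (E v) (by
          intro τ hτ1 hτ2
          have h2 := hVK v hv (τ + θ) (by linarith) (by linarith)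
          obtain ⟨l, hl⟩ := Set.mem_iUnion.1 (ht1 h2)
          obtain ⟨k, i, hi1, hi2, hi3, hi4⟩ := block L A N (κ l) hL1 hA2 hN1 (ht2 l)
          refine ⟨k, ⟨i, hi2⟩, ?_⟩
          rw [hE]
          exact ⟨hi1, l, (hJmem _ _ _).2 ⟨hi4, hi3⟩, hl⟩)
      exact ⟨k, (i, p), Finset.mem_product.2 ⟨Finset.mem_univ _, hp⟩, hv, h1⟩)
    y1 hy1pos hy1V
  obtain ⟨i, p⟩ := q
  rw [Finset.mem_product] at hq
  obtain ⟨-, hp⟩ := hq
  simp only at hp hkq
  rw [← hw] at hkq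
  obtain ⟨G, hG⟩ : ∃ G : Set (Fin d → ℝ), G = {v : Fin d → ℝ | v ∈ V ∧ ∀ x ∈ X, ∃ τ ∈ E v k i,
      |τ - (p.1 + p.2 * x)| ≤ lam (k + 1)} := ⟨_, rfl⟩
  rw [← hG] at hkq
  have hGmem : ∀ v ∈ G, v ∈ V ∧ ∀ x ∈ X, ∃ τ ∈ E v k i, |τ - (p.1 + p.2 * x)| ≤ lam (k + 1) := by
    intro v hv
    rw [hG] at hv
    exact hv
  have hGpos : 0 < y1 / w ^ (k + 1) := by positivity
  have hiN : N ≤ (i : ℕ) := by
    have hne : G.Nonempty := by
      apply nonempty_of_measure_ne_zero (μ := volume)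
      intro h1
      rw [h1, nonpos_iff_eq_zero, ENNReal.ofReal_eq_zero] at hkq
      linarith
    obtain ⟨v, hv⟩ := hne
    obtain ⟨τ, hτ, -⟩ := (hGmem v hv).2 1 hX1
    rw [hE] at hτ
    exact hτ.1
  obtain ⟨η, hη⟩ : ∃ η : ℝ, η = p.2 := ⟨_, rfl⟩
  have hAk : k + 1 ≤ A ^ k := by
    calc k + 1 ≤ 2 ^ k := Nat.lt_two_pow_self
      _ ≤ A ^ k := Nat.pow_le_pow_left hA2 k
  have hA0 : (0 : ℝ) < A := by exact_mod_cast (by omega : 0 < A)
  have hηlow : c1 * (2 : ℝ) ^ (-(((L * A ^ k * i : ℕ) : ℝ) / A)) ≤ η := by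
    rw [hη]
    have hc1le : c1 ≤ 1 / (4 * M) := by
      rw [hc1, div_le_div_iff₀ (by positivity) (by positivity)]
      nlinarith
    rcases k with _ | k
    · have h1 := hP0 p hp
      have h2 : (2 : ℝ) ^ (-(((L * A ^ 0 * i : ℕ) : ℝ) / A)) ≤ 1 :=
        Real.rpow_le_one_of_one_le_of_nonpos (by norm_num) (by
          rw [neg_nonpos]
          positivity)
      calc c1 * _ ≤ c1 * 1 := mul_le_mul_of_nonneg_left h2 hc1pos.le
        _ = y / (16 * M) := by rw [mul_one, hc1]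
        _ ≤ p.2 := h1
    · have h1 := hPs k p hp
      have h2 : (2 : ℝ) ^ (-(((L * A ^ (k + 1) * i : ℕ) : ℝ) / A)) ≤ lam k := by
        rw [hlamd]
        have h3 : (1 / 2 : ℝ) ^ (L * N * A ^ k) = (2 : ℝ) ^ (-((L * N * A ^ k : ℕ) : ℝ)) := by
          rw [Real.rpow_neg (by norm_num), Real.rpow_natCast, one_div, inv_pow]
        rw [h3]
        apply Real.rpow_le_rpow_of_exponent_le (by norm_num)
        rw [neg_le_neg_iff, le_div_iff₀ hA0]
        have h4 : L * N * A ^ k * A ≤ L * A ^ (k + 1) * i := by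
          calc L * N * A ^ k * A = L * A ^ (k + 1) * N := by ring
            _ ≤ L * A ^ (k + 1) * i := Nat.mul_le_mul_left _ hiN
        exact_mod_cast h4
      calc c1 * _ ≤ 1 / (4 * M) * lam k := mul_le_mul hc1le h2 (by positivity) (by positivity)
        _ = lam k / (4 * M) := by ring
        _ ≤ p.2 := h1
  have hη0 : 0 < η := lt_of_lt_of_le (by positivity) hηlow
  have hδk : 0 < δ k i := hδ0 k i
  have hlamδ : lam (k + 1) ≤ δ k i := by
    rw [hlamd, hδ]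
    apply pow_le_pow_of_le_one (by norm_num) (by norm_num)
    calc L * A ^ k * i ≤ L * A ^ k * (A * N) := Nat.mul_le_mul_left _ i.2.le
      _ = L * N * A ^ (k + 1) := by ring
  obtain ⟨V', hV'G, hV'sep, hV'vol⟩ := sep_subset G (fun v hv => hV01 v (hGmem v hv).1)
    (2 * δ k i / η) (by positivity)
  have hcells : ∀ x ∈ X, ((V'.image (pos (δ k i) B (θ + p.1 + x * η))).card : ℝ) ≤
      5 ^ d * T k i := by
    intro x hx
    have h1 := cells (δ k i) hδk V' B (θ + p.1 + x * η)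
      ((J k i).filter fun l => |(z l 0 - h0) - (θ + (p.1 + p.2 * x))| ≤ 2 * δ k i)
      (fun l m => z l m.succ) (by
        intro v hv
        obtain ⟨hvV, hvX⟩ := hGmem v (hV'G v hv)
        obtain ⟨τ, hτE, hτ⟩ := hvX x hx
        rw [hE] at hτE
        obtain ⟨-, l, hl, hlt⟩ := hτE
        have hzl := hz l ⟨_, hlt⟩
        have hdist := ht3 l _ hzl _ hlt
        have hκl : L * A ^ k * i ≤ κ l := ((hJmem _ _ _).1 hl).2
        have hdist2 : dist (z l) (pt d (h0 + (τ + θ)) (fun m => B v m + (τ + θ) * v m)) ≤ δ k i := by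
          refine hdist.trans ?_
          rw [hδ]
          exact pow_le_pow_of_le_one (by norm_num) (by norm_num) hκl
        have hcoord : ∀ m, |z l m - (pt d (h0 + (τ + θ)) (fun m => B v m + (τ + θ) * v m)) m| ≤
            δ k i := fun m => (coord_dist _ _ m).trans hdist2
        have hτ' : |τ - (p.1 + p.2 * x)| ≤ δ k i := hτ.trans hlamδ
        refine ⟨l, Finset.mem_filter.2 ⟨hl, ?_⟩, ?_⟩
        · have h2 := hcoord 0
          rw [pt_zero] at h2
          have e1 := abs_le.1 h2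
          have e2 := abs_le.1 hτ'
          rw [abs_le]
          constructor
          · linarith [e1.1, e2.1]
          · linarith [e1.2, e2.2]
        · intro m
          have h2 := hcoord m.succ
          rw [pt_succ] at h2
          have e1 := abs_le.1 h2
          have e2 := abs_le.1 hτ'
          have e3 := hV01 v hvV m
          have e4 : (B v m + (θ + p.1 + x * η) * v m) = (B v m + (τ + θ) * v m) -
              (τ - (p.1 + p.2 * x)) * v m := by rw [hη]; ring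
          have e5 : (τ - (p.1 + p.2 * x)) * v m ≤ δ k i := by
            calc (τ - (p.1 + p.2 * x)) * v m ≤ δ k i * v m :=
                mul_le_mul_of_nonneg_right e2.2 e3.1
              _ ≤ δ k i * 1 := mul_le_mul_of_nonneg_left e3.2 hδk.le
              _ = δ k i := mul_one _
          have e6 : -(δ k i) ≤ (τ - (p.1 + p.2 * x)) * v m := by
            calc -(δ k i) = -(δ k i) * 1 := by ring
              _ ≤ -(δ k i) * v m := by nlinarith [e3.2]
              _ ≤ (τ - (p.1 + p.2 * x)) * v m := mul_le_mul_of_nonneg_right e2.1 e3.1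
          rw [e4, abs_le]
          constructor
          · linarith [e1.1]
          · linarith [e1.2])
    refine h1.trans ?_
    have h2 := (hθ k i p hp x hx).le
    exact mul_le_mul_of_nonneg_left h2 (by positivity)
  have hcore' := hcore (δ k i) hδk V' B (θ + p.1) η hη0 hV'sep (5 ^ d * T k i) (by
      have h1 := hcells 1 hX1
      rw [one_mul] at h1
      exact h1) (fun r hr => hcells _ (hXr r hr))
  have hvol' : y1 / w ^ (k + 1) ≤ (V'.card : ℝ) * (4 * (1 / 2 : ℝ) ^ (L * A ^ k * (i : ℕ)) / η) ^ d := by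
    have h1 := (ENNReal.ofReal_le_ofReal_iff (by positivity)).1 (hkq.trans hV'vol)
    refine h1.trans (le_of_eq ?_)
    rw [hδ]
    congr 2
    ring
  have hKL : L * (k + 1) ≤ L * A ^ k * (i : ℕ) := by
    calc L * (k + 1) ≤ L * A ^ k := Nat.mul_le_mul_left _ hAk
      _ ≤ L * A ^ k * (i : ℕ) := Nat.le_mul_of_pos_right _ (by omega)
  refine numeric (K' := L * A ^ k * ((i : ℕ) + 1)) hc hα0.le hγ hγ0 (by omega : 1 ≤ A) hN1 hdA hcN rfl
    hw1 hy0 hy1pos hc1pos hC1 hCα0 hE0 hLE hηlow hvol' hcore' ?_ (Nat.cast_nonneg (J k i).card)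
    (hJcard k i) ?_ hKL
  · rw [hT, hδ]
  · have hN0 : (0 : ℝ) < N := by exact_mod_cast hN1
    have hiN' : (N : ℝ) ≤ (i : ℕ) := by exact_mod_cast hiN
    push_cast
    have h1 : (L : ℝ) * A ^ k * (1 : ℝ) ≤ L * A ^ k * ((i : ℕ) / N) := by
      apply mul_le_mul_of_nonneg_left _ (by positivity)
      rw [le_div_iff₀ hN0]
      linarith
    have h2 : (L : ℝ) * A ^ k * (i : ℕ) * (1 + 1 / N) = L * A ^ k * (i : ℕ) + L * A ^ k * ((i : ℕ) / N) := by
      ring
    rw [h2]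
    linarith

end Pool.Agent.W5h51.KH
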