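import Mathlib

/-!
# A multiscale version of van der Waerden's theorem

`nested`: for every finite set of reals `X` and every finite set of colours there are explicit
families `P k` of homothetic copies of `X`, with at most `CP ^ (k + 1)` members at the level `k`, such
that every cover of an interval by sets `E k i` (countably many levels `k`, finitely many colours `i`
at each level) admits a level `k`, a colour `i` and a member of `P k` all of whose points are within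
the (much smaller) distance `lam (k + 1)` from `E k i`.
-/

set_option autoImplicit false

open Finset

namespace Pool.Agent.W5h51.KH

/-- van der Waerden's theorem for the homothetic copies of a finite set of reals -/
theorem vdw (X : Finset ℝ) (κ : Type) [Finite κ] :
    ∃ H : Finset (ℝ × ℝ), (∀ p ∈ H, 1 ≤ p.2) ∧
      ∀ C : ℝ → κ, ∃ p ∈ H, ∃ c : κ, ∀ x ∈ X, C (p.1 + p.2 * x) = c := by
  classical
  obtain ⟨ι, hι, hL⟩ := Combinatorics.Line.exists_mono_in_high_dimension (↥X) κ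
  let p1 : (ι → Option ↥X) → ℝ := fun f => ∑ i, (f i).elim 0 (fun x => (x : ℝ))
  let p2 : (ι → Option ↥X) → ℝ := fun f => ∑ i, if f i = none then (1 : ℝ) else 0
  refine ⟨(Finset.univ.filter fun f : ι → Option ↥X => ∃ i, f i = none).image
    (fun f => (p1 f, p2 f)), ?_, ?_⟩
  · intro p hp
    rw [Finset.mem_image] at hp
    obtain ⟨f, hf, rfl⟩ := hp
    rw [Finset.mem_filter] at hf
    obtain ⟨i, hi⟩ := hf.2
    change 1 ≤ ∑ i, if f i = none then (1 : ℝ) else 0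
    calc (1 : ℝ) = if f i = none then (1 : ℝ) else 0 := by rw [if_pos hi]
      _ ≤ ∑ i, if f i = none then (1 : ℝ) else 0 :=
        Finset.single_le_sum (f := fun i => if f i = none then (1 : ℝ) else 0)
          (fun j _ => by split_ifs <;> norm_num) (Finset.mem_univ i)
  · intro C
    obtain ⟨l, c, hc⟩ := hL (fun w => C (∑ i, (w i : ℝ)))
    refine ⟨(p1 l.idxFun, p2 l.idxFun), ?_, c, ?_⟩
    · rw [Finset.mem_image]
      exact ⟨l.idxFun, Finset.mem_filter.2 ⟨Finset.mem_univ _, l.proper⟩, rfl⟩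
    · intro x hx
      have h1 := hc ⟨x, hx⟩
      have h2 : (∑ i, ((l ⟨x, hx⟩ i : ↥X) : ℝ)) = p1 l.idxFun + p2 l.idxFun * x := by
        change _ = (∑ i, (l.idxFun i).elim 0 (fun x => (x : ℝ))) +
          (∑ i, if l.idxFun i = none then (1 : ℝ) else 0) * x
        rw [Finset.sum_mul, ← Finset.sum_add_distrib]
        refine Finset.sum_congr rfl fun i _ => ?_
        rw [Combinatorics.Line.apply_def]
        cases h : l.idxFun i with
        | none => simp [h]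
        | some y => simp [h]
      change C (p1 l.idxFun + p2 l.idxFun * x) = c
      rw [← h2]
      exact h1

/-- the states of the construction -/
noncomputable def St (S : Finset ℝ) (H2 : Finset (ℝ × ℝ)) (β : ℕ → ℝ) (z : ℝ × ℝ) :
    ℕ → Finset (ℝ × ℝ)
  | 0 => {z}
  | (k + 1) => (St S H2 β z k ×ˢ S ×ˢ H2).image
      (fun u => (u.1.1 + u.1.2 * u.2.1 + β k * u.2.2.1, β k * u.2.2.2))

theorem St_card (S : Finset ℝ) (H2 : Finset (ℝ × ℝ)) (β : ℕ → ℝ) (z : ℝ × ℝ) (k : ℕ) :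
    (St S H2 β z k).card ≤ (S.card * H2.card) ^ k := by
  induction k with
  | zero => simp [St]
  | succ k ih =>
    rw [St]
    refine Finset.card_image_le.trans ?_
    rw [Finset.card_product, Finset.card_product, pow_succ]
    exact Nat.mul_le_mul_right _ ih

theorem nested (X : Finset ℝ) (κ : Type) [Finite κ] :
    ∃ (M : ℝ) (CP : ℕ), 1 ≤ M ∧ 1 ≤ CP ∧ ∀ lam : ℕ → ℝ, (∀ k, 0 < lam k) →
      (∀ k, lam (k + 1) ≤ lam k / 2) → ∀ a0 b0 : ℝ, 0 < b0 →
      ∃ P : ℕ → Finset (ℝ × ℝ), (∀ k, (P k).card ≤ CP ^ (k + 1)) ∧ (∀ p ∈ P 0, b0 ≤ p.2) ∧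
        (∀ k, ∀ p ∈ P (k + 1), lam k / (4 * M) ≤ p.2) ∧
        ∀ lo hi : ℝ, lo ≤ a0 - M * b0 - lam 0 → a0 + M * b0 + lam 0 ≤ hi →
          ∀ E : ℕ → κ → Set ℝ, (∀ τ, lo ≤ τ → τ ≤ hi → ∃ k i, τ ∈ E k i) →
            ∃ (k : ℕ) (i : κ), ∃ p ∈ P k, ∀ x ∈ X, ∃ τ ∈ E k i,
              |τ - (p.1 + p.2 * x)| ≤ lam (k + 1) := by
  classical
  obtain ⟨H1, hH1, hv1⟩ := vdw X κ
  obtain ⟨S, hS⟩ : ∃ S : Finset ℝ, S = insert 0 ((H1 ×ˢ X).image (fun u => u.1.1 + u.1.2 * u.2)) :=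
    ⟨_, rfl⟩
  have hS0 : (0 : ℝ) ∈ S := by rw [hS]; exact Finset.mem_insert_self _ _
  have hS1 : ∀ p ∈ H1, ∀ x ∈ X, p.1 + p.2 * x ∈ S := by
    intro p hp x hx
    rw [hS]
    exact Finset.mem_insert_of_mem (Finset.mem_image.2 ⟨(p, x), Finset.mem_product.2 ⟨hp, hx⟩, rfl⟩)
  obtain ⟨H2, hH2, hv2⟩ := vdw S ↥S
  obtain ⟨R, hR⟩ : ∃ R : Finset ℝ, R = (H2 ×ˢ S).image (fun u => u.1.1 + u.1.2 * u.2) := ⟨_, rfl⟩
  have hR1 : ∀ q ∈ H2, ∀ s ∈ S, q.1 + q.2 * s ∈ R := by
    intro q hq s hs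
    rw [hR]
    exact Finset.mem_image.2 ⟨(q, s), Finset.mem_product.2 ⟨hq, hs⟩, rfl⟩
  obtain ⟨M, hM⟩ : ∃ M : ℝ, M = 1 + ∑ s ∈ S, |s| + ∑ r ∈ R, |r| := ⟨_, rfl⟩
  have hs0 : 0 ≤ ∑ s ∈ S, |s| := Finset.sum_nonneg fun s _ => abs_nonneg s
  have hr0 : 0 ≤ ∑ r ∈ R, |r| := Finset.sum_nonneg fun s _ => abs_nonneg s
  have hMS : ∀ s ∈ S, |s| ≤ M := by
    intro s hs
    have := Finset.single_le_sum (f := fun s : ℝ => |s|) (fun s _ => abs_nonneg s) hs
    rw [hM]
    linarith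
  have hMR : ∀ r ∈ R, |r| ≤ M := by
    intro r hr
    have := Finset.single_le_sum (f := fun s : ℝ => |s|) (fun s _ => abs_nonneg s) hr
    rw [hM]
    linarith
  have hM1 : 1 ≤ M := by rw [hM]; linarith
  have hM0 : 0 < M := by linarith
  refine ⟨M, (S.card * H2.card + 1) * (R.card * H1.card + 1), hM1,
    Nat.one_le_iff_ne_zero.2 (by positivity), ?_⟩
  intro lam hlam hlam2 a0 b0 hb0
  obtain ⟨β, hβ⟩ : ∃ β : ℕ → ℝ, ∀ k, β k = lam k / (4 * M) := ⟨fun k => lam k / (4 * M), fun k => rfl⟩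
  have hβpos : ∀ k, 0 < β k := fun k => by rw [hβ]; have := hlam k; positivity
  have hst1 : ∀ z ∈ St S H2 β (a0, b0) 0, z.2 = b0 := by
    intro z hz
    rw [St, Finset.mem_singleton] at hz
    rw [hz]
  have hst2 : ∀ k, ∀ z ∈ St S H2 β (a0, b0) (k + 1), β k ≤ z.2 := by
    intro k z hz
    rw [St, Finset.mem_image] at hz
    obtain ⟨u, hu, rfl⟩ := hz
    rw [Finset.mem_product, Finset.mem_product] at hu
    have := hH2 _ hu.2.2
    change β k ≤ β k * u.2.2.2
    nlinarith [hβpos k]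
  refine ⟨fun k => (St S H2 β (a0, b0) k ×ˢ R ×ˢ H1).image
    (fun u => (u.1.1 + β k * u.2.1 + u.1.2 * u.2.2.1, u.1.2 * u.2.2.2)), ?_, ?_, ?_, ?_⟩
  · intro k
    refine Finset.card_image_le.trans ?_
    rw [Finset.card_product, Finset.card_product]
    calc (St S H2 β (a0, b0) k).card * (R.card * H1.card)
        ≤ (S.card * H2.card) ^ k * (R.card * H1.card) :=
          Nat.mul_le_mul_right _ (St_card S H2 β _ k)
      _ ≤ (S.card * H2.card + 1) ^ (k + 1) * (R.card * H1.card + 1) ^ (k + 1) := by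
          apply Nat.mul_le_mul
          · calc (S.card * H2.card) ^ k ≤ (S.card * H2.card + 1) ^ k :=
                Nat.pow_le_pow_left (Nat.le_succ _) _
              _ ≤ (S.card * H2.card + 1) ^ (k + 1) := Nat.pow_le_pow_right (Nat.succ_pos _) (Nat.le_succ _)
          · calc R.card * H1.card ≤ R.card * H1.card + 1 := Nat.le_succ _
              _ ≤ (R.card * H1.card + 1) ^ (k + 1) := Nat.le_self_pow (Nat.succ_ne_zero _) _
      _ = _ := (Nat.mul_pow _ _ _).symm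
  · intro p hp
    rw [Finset.mem_image] at hp
    obtain ⟨u, hu, rfl⟩ := hp
    rw [Finset.mem_product, Finset.mem_product] at hu
    have h1 := hst1 _ hu.1
    have h2 := hH1 _ hu.2.2
    change b0 ≤ u.1.2 * u.2.2.2
    rw [h1]
    nlinarith
  · intro k p hp
    rw [Finset.mem_image] at hp
    obtain ⟨u, hu, rfl⟩ := hp
    rw [Finset.mem_product, Finset.mem_product] at hu
    have h1 := hst2 _ _ hu.1
    have h2 := hH1 _ hu.2.2
    change lam k / (4 * M) ≤ u.1.2 * u.2.2.2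
    rw [← hβ]
    nlinarith [hβpos k]
  intro lo hi hlo hhi E hE
  by_contra hcon
  push Not at hcon
  let Inv : ℕ → ℝ × ℝ → Prop := fun k z => z ∈ St S H2 β (a0, b0) k ∧
    ∀ s ∈ S, ∀ τ, |τ - (z.1 + z.2 * s)| ≤ lam k → (lo ≤ τ ∧ τ ≤ hi) ∧ ∀ g < k, ∀ i, τ ∉ E g i
  have hinit : Inv 0 (a0, b0) := by
    refine ⟨by rw [St]; exact Finset.mem_singleton_self _, ?_⟩
    intro s hs τ hτ
    refine ⟨?_, fun g hg => absurd hg (Nat.not_lt_zero _)⟩
    have h1 := abs_le.1 hτ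
    have h2 := abs_le.1 (hMS s hs)
    have h3 : b0 * s ≤ M * b0 := by nlinarith
    have h4 : -(M * b0) ≤ b0 * s := by nlinarith
    simp only at h1
    constructor
    · linarith
    · linarith
  have hstep : ∀ k z, Inv k z → ∃ z', Inv (k + 1) z' ∧
      ∃ s ∈ S, ∀ s' ∈ S, |(z'.1 + z'.2 * s') - (z.1 + z.2 * s)| ≤ lam k / 4 := by
    intro k z hz
    -- every shift has an avoiding point
    have hA : ∀ r ∈ R, ∃ s ∈ S, ∀ i, ∀ τ ∈ E k i, lam (k + 1) < |τ - (z.1 + β k * r + z.2 * s)| := by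
      intro r hr
      by_contra hc
      push Not at hc
      have hκ : Nonempty κ := ⟨(hc 0 hS0).choose⟩
      choose! C hC using hc
      choose! τ hτE hτ using hC
      obtain ⟨p, hp, c, hpc⟩ := hv1 C
      obtain ⟨x, hx, hx2⟩ := hcon k c (z.1 + β k * r + z.2 * p.1, z.2 * p.2)
        (Finset.mem_image.2 ⟨(z, r, p), Finset.mem_product.2 ⟨hz.1, Finset.mem_product.2 ⟨hr, hp⟩⟩, rfl⟩)
      have h1 := hpc x hx
      have h2 := hτE (p.1 + p.2 * x) (hS1 p hp x hx)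
      have h3 := hτ (p.1 + p.2 * x) (hS1 p hp x hx)
      rw [h1] at h2
      have h4 := hx2 _ h2
      have h5 : z.1 + β k * r + z.2 * (p.1 + p.2 * x) = z.1 + β k * r + z.2 * p.1 + z.2 * p.2 * x := by
        ring
      rw [h5] at h3
      linarith
    choose! f hf1 hf2 using hA
    obtain ⟨q, hq, c, hqc⟩ := hv2 (fun r => if h : r ∈ R then ⟨f r, hf1 r h⟩ else ⟨0, hS0⟩)
    have hfc : ∀ s' ∈ S, f (q.1 + q.2 * s') = c := by
      intro s' hs'
      have h1 := hqc s' hs'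
      simp only [dif_pos (hR1 q hq s' hs')] at h1
      rw [← h1]
    have hclose : ∀ s' ∈ S, |(z.1 + z.2 * (c : ℝ) + β k * q.1 + β k * q.2 * s') - (z.1 + z.2 * (c : ℝ))|
        ≤ lam k / 4 := by
      intro s' hs'
      have h1 : (z.1 + z.2 * (c : ℝ) + β k * q.1 + β k * q.2 * s') - (z.1 + z.2 * (c : ℝ)) =
          β k * (q.1 + q.2 * s') := by ring
      rw [h1, abs_mul, abs_of_pos (hβpos k)]
      have h2 := hMR _ (hR1 q hq s' hs')
      have h3 : β k * M = lam k / 4 := by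
        rw [hβ]
        field_simp
      rw [← h3]
      exact mul_le_mul_of_nonneg_left h2 (hβpos k).le
    refine ⟨(z.1 + z.2 * (c : ℝ) + β k * q.1, β k * q.2), ⟨?_, ?_⟩, c, c.2, hclose⟩
    · rw [St]
      exact Finset.mem_image.2 ⟨(z, (c : ℝ), q),
        Finset.mem_product.2 ⟨hz.1, Finset.mem_product.2 ⟨c.2, hq⟩⟩, rfl⟩
    · intro s' hs' τ hτ
      simp only at hτ
      have h1 := hclose s' hs'
      have h2 : |τ - (z.1 + z.2 * (c : ℝ))| ≤ lam k := by
        have h3 := abs_sub_le τ (z.1 + z.2 * (c : ℝ) + β k * q.1 + β k * q.2 * s') (z.1 + z.2 * (c : ℝ))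
        have h4 := hlam2 k
        have h5 := hlam k
        linarith
      obtain ⟨h3, h4⟩ := hz.2 _ c.2 τ h2
      refine ⟨h3, fun g hg i => ?_⟩
      rcases Nat.lt_succ_iff_lt_or_eq.1 hg with hg' | rfl
      · exact h4 g hg' i
      · intro hτE
        have h5 := hf2 _ (hR1 q hq s' hs') i τ hτE
        rw [hfc s' hs'] at h5
        have h6 : z.1 + β g * (q.1 + q.2 * s') + z.2 * (c : ℝ) =
            z.1 + z.2 * (c : ℝ) + β g * q.1 + β g * q.2 * s' := by ring
        rw [h6] at h5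
        linarith
  choose! F hF1 hF2 using hstep
  let zs : (k : ℕ) → {z : ℝ × ℝ // Inv k z} := fun k =>
    Nat.rec (motive := fun k => {z : ℝ × ℝ // Inv k z}) ⟨(a0, b0), hinit⟩
      (fun k z => ⟨F k z.1, hF1 k z.1 z.2⟩) k
  have hzs : ∀ k, (zs (k + 1)).1 = F k (zs k).1 := fun k => rfl
  have hG : ∀ k, ∃ s ∈ S, ∀ s' ∈ S, |((zs (k + 1)).1.1 + (zs (k + 1)).1.2 * s') -
      ((zs k).1.1 + (zs k).1.2 * s)| ≤ lam k / 4 := by
    intro k
    rw [hzs k]
    exact hF2 k _ (zs k).2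
  choose s hs hs2 using hG
  have hlim := IsCompact.nonempty_iInter_of_sequence_nonempty_isCompact_isClosed
    (fun k => Metric.closedBall ((zs k).1.1 + (zs k).1.2 * s k) (lam k)) ?_ ?_ ?_ ?_
  · obtain ⟨τ, hτ⟩ := hlim
    rw [Set.mem_iInter] at hτ
    have hτ' : ∀ k, |τ - ((zs k).1.1 + (zs k).1.2 * s k)| ≤ lam k := fun k => hτ k
    have h0 := (zs 0).2.2 (s 0) (hs 0) τ (hτ' 0)
    obtain ⟨g, i, hgi⟩ := hE τ h0.1.1 h0.1.2
    exact ((zs (g + 1)).2.2 (s (g + 1)) (hs _) τ (hτ' _)).2 g (Nat.lt_succ_self g) i hgi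
  · intro k
    apply Metric.closedBall_subset_closedBall'
    have h1 := hs2 k (s (k + 1)) (hs _)
    have h2 := hlam2 k
    have h3 := hlam k
    rw [Real.dist_eq]
    linarith
  · intro k
    exact ⟨_, Metric.mem_closedBall_self (hlam k).le⟩
  · exact isCompact_closedBall _ _
  · intro k
    exact Metric.isClosed_closedBall

end Pool.Agent.W5h51.KH
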